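import Pool.Agent.Run7.h89.Final

/-!
# Locally analytic vectors in `D̃_K^{†,r}(T)`: a structure theorem

For every `K_∞/K`, every coordinate system on a subgroup of `Γ_K`, and every representation `T` of
`G_K` on `ℤ_p^h`, there is one `H_K`-stable direct summand `T'` of `T` (independent of `r`) such
that for all `r > 0` the module of locally analytic vectors is free of rank `rk T'`, the
multiplication map of Kedlaya's question is injective, and its image is
`(Ã^{†,r} ⊗ T')^{H_K} = D̃_K^{†,r}(T')`.  If the map is onto for one `r` it is bijective for all `r`.
-/

open Run7.h89 Run7.h89.Ked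

theorem Pool.Agent.Results.MP_6a66d1_nt.LaStructure.result (S : Setup) :
    ∃ T' : S.SubT,
      -- `T'` is a direct summand of `T = ℤ_p^h`, stable under `H_K`
      S.IsSummand T' ∧ S.IsStable T' ∧
      (∀ r : {r : ℝ // 0 < r},
        -- the locally analytic vectors form a free module of rank `rk T'`
        S.LaFree r (S.rk T') ∧
        -- the multiplication map is injective
        Function.Injective (S.mulMap r) ∧
        -- its image is `(Ã^{†,r} ⊗ T')^{H_K}`
        Set.range (S.mulMap r) = S.DSub r T') ∧
      -- if the map is surjective for one `r`, it is bijective for every `r`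
      ((∃ r, Function.Surjective (S.mulMap r)) → ∀ r, Function.Bijective (S.mulMap r)) :=
  S.structure_thm
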